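import Pool.Agent.Run7.h380.RS.Main

set_option autoImplicit false

/-!
# MP_927e73_nt: prime values in the real solutions of the recurrence of `p ^ 2 - 2 r ^ 2 = -1`

The pairs `(p_k, r_k)` of the problem are `sol (2 k + 1)`, where `sol n = (x, y)` with
`x + y √2 = (1 + √2) ^ n`; both sequences satisfy `T (n + 2) = 2 T (n + 1) + T n`. The real
solutions of this recurrence are `T β B n = β (1 + √2) ^ n + B (1 - √2) ^ n`; the first members
are the solution with `β = B = 1 / 2`, the second members the one with
`β = 1 / (2 √2)`, `B = -1 / (2 √2)`. For a prime `p` let `W β B p` be the `p`-rough part (the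
product, with multiplicity, of the prime factors larger than `p`) of `⌊T β B p⌋`. For the two
special solutions it is the term with index `p` itself, for every odd prime `p`. (If `p_k` is a
prime then `2 k + 1` is a prime; the same is true for `r_k`.)

Q1: for every `B` and almost every `β > 0` the number of primes `p ≤ n` with `W β B p` prime is
`(e ^ γ / log (1 + √2)) log n` with a square root error term; for every set `S` of indices the
number of prime values with index in `S` is infinite if and only if the sum of `log p / p` over the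
primes `p` in `S` diverges, and then a law with error term holds for `S`.

Q2: for all `B`, `B'`, for almost every `β > 0` and for almost every `β' > 0` there are only
finitely many primes `p` for which both `W β B p` and `W β' B' p` are prime.
-/

namespace Pool.Agent.Results.MP_927e73_nt.RealSolutions

open Filter Topology MeasureTheory Asymptotics
open Run7.h380.RF (sol sol_real)
open Run7.h380.RS

/-- `sol n = (x, y)` with `x + y √2 = (1 + √2) ^ n`; `T β B n = β (1 + √2) ^ n + B (1 - √2) ^ n`;
`W β B p` is the `p`-rough part of `⌊T β B p⌋`; `M S β B n` is the number of the primes `p ≤ n` in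
`S` with `W β B p` prime; `V S n` is the sum of `log p / p` over the primes `p ≤ n` in `S`. -/
theorem result :
    -- the special solutions
    (∀ n : ℕ, ((sol n).1 : ℝ) + ((sol n).2 : ℝ) * √2 = (1 + √2) ^ n ∧
      T (1 / 2) (1 / 2) n = (sol n).1 ∧
      T (1 / (2 * √2)) (-(1 / (2 * √2))) n = (sol n).2) ∧
    (∀ p : ℕ, p.Prime → p ≠ 2 → W (1 / 2) (1 / 2) p = (sol p).1 ∧
      W (1 / (2 * √2)) (-(1 / (2 * √2))) p = (sol p).2) ∧
    -- Q1: the law for almost every solution of the recurrence
    (∀ B : ℝ,
      (∀ᵐ β : ℝ, 0 < β →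
        (fun n : ℕ => (M Set.univ β B n : ℝ) -
          Real.exp Real.eulerMascheroniConstant / Real.log (1 + √2) * Real.log n) =O[atTop]
        (fun n : ℕ => Real.sqrt (Real.log n) * (Real.log (Real.log n)) ^ ((5 : ℝ) / 2))) ∧
      (∀ S : Set ℕ, Tendsto (V S) atTop atTop → ∀ᵐ β : ℝ, 0 < β →
        (fun n : ℕ => (M S β B n : ℝ) -
          Real.exp Real.eulerMascheroniConstant / Real.log (1 + √2) * V S n) =O[atTop]
        (fun n : ℕ => Real.sqrt (V S n * Real.log (Real.log n)) *
          (Real.log (V S n * Real.log (Real.log n))) ^ 2)) ∧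
      (∀ S : Set ℕ, ∀ᵐ β : ℝ, 0 < β →
        ({p : ℕ | p.Prime ∧ p ∈ S ∧ (W β B p).Prime}.Infinite ↔ Tendsto (V S) atTop atTop))) ∧
    -- Q2: both members
    (∀ B B' : ℝ, ∀ᵐ β : ℝ, 0 < β → ∀ᵐ β' : ℝ, 0 < β' →
      {p : ℕ | p.Prime ∧ (W β B p).Prime ∧ (W β' B' p).Prime}.Finite) :=
  ⟨fun n => ⟨sol_real n, T_x n, T_y n⟩, fun _ hp hp2 => ⟨W_x hp hp2, W_y hp hp2⟩,
    fun B => ⟨law B, law_set B, infinite_iff B⟩, both_finite⟩

end Pool.Agent.Results.MP_927e73_nt.RealSolutions
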