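import Pool.Agent.Run7.h380.RF.Main

set_option autoImplicit false

/-!
# MP_927e73_nt: solutions `(p, r)` of `p ^ 2 - 2 r ^ 2 = -1` without small prime factors

The solutions are `(p_k, r_k) = sol (2 k + 1)`, where `sol m = (x, y)` with
`x + y √2 = (1 + √2) ^ m`. If `p_k` is a prime (other than a few small ones) then `n = 2 k + 1`
is a prime; then all prime factors of `p_k` and of `r_k` are `± 1` modulo `n`, so they are at least
`2 n - 1`.

We show that for almost all primes `n` the prime factors of `p_k r_k` are larger than `n g(n)`, for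
every `g(n) = o(log n)`, and that for at least `X ^ (9 / 10)` primes `n ∈ (X, 3 X]`, in every
residue class prime to a squarefree modulus, they are larger than `c n f(n)`, where
`f(n) = log n (log₂ n)² log₄ n / (log₃ n)²` (iterated logarithms). The set of the indices `n` is
the same for the products `U n * V n` of all Lucas sequences `U`, `V` at once (with any
parameters `P`, `Q`; prime factors of `2 P Q (P ^ 2 - 4 Q)` are left out).

Proof: a prime factor is `j n + 1` or `j n - 1` for some `j ≥ 1` (the square of the ratio of the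
roots has order `n`); for almost all `n` none of these is a prime for `j ≤ g(n)`, by the upper bound
sieve; and the starting result `MP_2f88e5_nt.RecordPrimeFreeMultiples` gives primes `n` for which
they are composite for all `j ≤ c f(X)`.
-/

namespace Pool.Agent.Results.MP_927e73_nt.RoughSolutions

open Run7.h380.RF

/-- `sol m = (x, y)` is given by `x + y √2 = (1 + √2) ^ m`; `Factor n q` says that `q` is a prime
factor of `x * y`, where `(x, y) = sol n`, or that `q` is a prime factor of `U n * V n`, but not of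
`2 P Q (P ^ 2 - 4 Q)`, for the Lucas sequences `U`, `V` of some parameters `P`, `Q`;
`f(x) = log x (log₂ x)² log₄ x / (log₃ x)²`.

(A) At most `C K N / (log N) ^ 2` odd primes `n ≤ N` have a `q` with `Factor n q` and `q ≤ K n`.
(B) At least `X ^ (9 / 10)` primes `n ∈ (X, 3 X]`, `n ≡ h (mod d)`, have no `q` with `Factor n q`
and `q ≤ c X f(X)`. -/
theorem result :
    -- the solutions of `x ^ 2 - 2 y ^ 2 = -1` are the `sol (2 k + 1)`
    (∀ m : ℕ, ((sol m).1 : ℝ) + ((sol m).2 : ℝ) * √2 = (1 + √2) ^ m) ∧
    -- (A) almost all prime indices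
    (∃ C : ℝ, 0 < C ∧ ∀ N K : ℕ, 2 ≤ N →
      ({n : ℕ | n.Prime ∧ n ≠ 2 ∧ n ≤ N ∧ ∃ q : ℕ, Factor n q ∧ q ≤ K * n}.ncard : ℝ) ≤
        C * K * N / (Real.log N) ^ 2) ∧
    -- (B) many prime indices, the record scale
    (∀ d : ℕ, Squarefree d → ∃ c : ℝ, 0 < c ∧ ∃ X₀ : ℝ, ∀ X : ℝ, X₀ ≤ X →
      ∀ h : ℕ, h.Coprime d →
      X ^ (9 / 10 : ℝ) ≤ ({n : ℕ | n.Prime ∧ X < n ∧ (n : ℝ) ≤ 3 * X ∧ n ≡ h [MOD d] ∧
        ∀ q : ℕ, Factor n q → c * X * f X < q}.ncard : ℝ)) :=
  ⟨sol_real, partA, partB⟩

end Pool.Agent.Results.MP_927e73_nt.RoughSolutions
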