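import Pool.Agent.Run7.h166.PC.Window

/-!
# Common divisors of the solutions of `x ^ 2 - 2 y ^ 2 = ± 1` and combinations of few Pell numbers: the sharp exponent

The solutions of `x ^ 2 - 2 y ^ 2 = -1` in positive integers are `x + y √2 = (1 + √2) ^ n`, `n` odd.  Let `n ≥ 1` be any
index, prime or not, `x + y √2 = (1 + √2) ^ n`, `M = x` or `M = y`, let `P_i = 0, 1, 2, 5, 12, 29, …` be the Pell numbers
and `N` an integer which is not a multiple of `M`.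

(1) If `N = ∑_{i ∈ S} (u_i P_i + u'_i P_(i+1))` with `|S| = s` and arbitrary integers `u_i, u'_i` then
`gcd (M, N) ≤ ∑ (|u_i| + 3 |u'_i|) (1 + √2) ^ (n - n / (2 s))`.
(2) The exponent is best possible for every `s` for even `n` (`n = 2 s m`), and for odd `n = (2 s - 1) m` it cannot be
replaced by a number less than `n - n / (2 s - 1)`.
(3) If `N = ∑_{i ∈ S} u_i P_i` with `S ⊆ [0, n]`, `|u_i| ≤ B`, and `S` does not meet an interval `[k, k + l) ⊆ [0, n]`,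
then `(1 + √2) ^ l gcd (M, N) ^ 2 ≤ 18 B ^ 2 M ^ 2`.
(4) The number of terms in (3) is at least `n / (40 log (B M / gcd (M, N)))`; in (1), with coefficients at most `B`, it is
at least `n / (40 log (n B M / gcd (M, N)))`.
(5) So if `M = d e` with `d, e > 1`, and `d = ∑_{i ∈ S} u_i P_i` with `S ⊆ [0, n]`, `|u_i| ≤ B`, then
`|S| log (B e) ≥ n / 40`, and `(1 + √2) ^ l ≤ 18 B ^ 2 e ^ 2` for all intervals of length `l` as in (3).

Proof (`Pool/Agent/Run7/h166/PC`).  Modulo `2 M` we have `(1 + √2) ^ (2 n) = ± 1`; so the powers of `1 + √2` which occur in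
`2 √2 N` are points of the circle `ℤ / 2 n`, at most `2 s` of them, and the largest gap can be rotated to the end of
`[0, 2 n)`.  The element of `ℤ[√2]` obtained in this way is not zero, is divisible by `2 gcd (M, N)`, and has a small norm.
-/

set_option autoImplicit false

namespace Pool.Agent.Results.MP_927e73_nt.SharpCommonDivisors

open Finset Real Pool.Agent.Run7.h166.PC

/-- **Common divisors of the solutions of `x ^ 2 - 2 y ^ 2 = ± 1` and combinations of few Pell numbers.** -/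
theorem result :
    -- (1) `s` pairs of consecutive Pell numbers, arbitrary coefficients
    (∀ n : ℕ, 0 < n → ∀ x y : ℤ, (x : ℝ) + y * √2 = (1 + √2) ^ n → ∀ M : ℤ, (M = x ∨ M = y) →
      ∀ (S : Finset ℕ) (u u' : ℕ → ℤ), ¬ M ∣ ∑ i ∈ S, (u i * P i + u' i * P (i + 1)) →
        (Int.gcd M (∑ i ∈ S, (u i * P i + u' i * P (i + 1))) : ℝ) ≤
          (∑ i ∈ S, (|(u i : ℝ)| + 3 * |(u' i : ℝ)|)) * (1 + √2) ^ ((n : ℝ) - n / (2 * S.card))) ∧
    -- (2) sharpness, even `n`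
    (∀ s m : ℕ, 0 < s → 2 ≤ m → ∀ x y : ℤ, (x : ℝ) + y * √2 = (1 + √2) ^ (2 * s * m) →
      ∃ (S : Finset ℕ) (u u' : ℕ → ℤ), S.card = s ∧ (∀ i ∈ S, |u i| ≤ 2 ∧ |u' i| ≤ 2 ∧ i < 2 * s * m) ∧
        ¬ y ∣ ∑ i ∈ S, (u i * P i + u' i * P (i + 1)) ∧
        (1 + √2) ^ (2 * s * m - m) ≤ 2 * (Int.gcd y (∑ i ∈ S, (u i * P i + u' i * P (i + 1))) : ℝ)) ∧
    -- (2) sharpness, odd `n`
    (∀ s m : ℕ, 2 ≤ m → ∀ x y : ℤ, (x : ℝ) + y * √2 = (1 + √2) ^ ((2 * s + 1) * m) →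
      ∃ (S : Finset ℕ) (u u' : ℕ → ℤ), S.card = s + 1 ∧ (∀ i ∈ S, |u i| ≤ 2 ∧ |u' i| ≤ 2 ∧ i < (2 * s + 1) * m) ∧
        ¬ y ∣ ∑ i ∈ S, (u i * P i + u' i * P (i + 1)) ∧
        (1 + √2) ^ ((2 * s + 1) * m - m) ≤
          2 * (Int.gcd y (∑ i ∈ S, (u i * P i + u' i * P (i + 1))) : ℝ)) ∧
    -- (3) intervals without terms
    (∀ n : ℕ, 0 < n → ∀ x y : ℤ, (x : ℝ) + y * √2 = (1 + √2) ^ n → ∀ M : ℤ, (M = x ∨ M = y) →
      ∀ (S : Finset ℕ) (u : ℕ → ℤ) (B : ℝ) (k l : ℕ), (∀ i ∈ S, i ≤ n) → (∀ i ∈ S, |(u i : ℝ)| ≤ B) →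
        k + l ≤ n + 1 → (∀ i ∈ S, i < k ∨ k + l ≤ i) → ¬ M ∣ ∑ i ∈ S, u i * P i →
        (1 + √2) ^ l * (Int.gcd M (∑ i ∈ S, u i * P i) : ℝ) ^ 2 ≤ 18 * B ^ 2 * (M : ℝ) ^ 2) ∧
    -- (4) the number of terms, indices in `[0, n]`
    (∀ n : ℕ, 0 < n → ∀ x y : ℤ, (x : ℝ) + y * √2 = (1 + √2) ^ n → ∀ M : ℤ, (M = x ∨ M = y) →
      ∀ (S : Finset ℕ) (u : ℕ → ℤ) (B : ℝ), (∀ i ∈ S, i ≤ n) → (∀ i ∈ S, |(u i : ℝ)| ≤ B) →
        ¬ M ∣ ∑ i ∈ S, u i * P i →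
        1 / 40 * (n : ℝ) ≤ S.card * Real.log (B * ((M : ℝ) / Int.gcd M (∑ i ∈ S, u i * P i)))) ∧
    -- (4) the number of terms, arbitrary indices
    (∀ n : ℕ, 0 < n → ∀ x y : ℤ, (x : ℝ) + y * √2 = (1 + √2) ^ n → ∀ M : ℤ, (M = x ∨ M = y) →
      ∀ (S : Finset ℕ) (u u' : ℕ → ℤ) (B : ℝ), (∀ i ∈ S, |(u i : ℝ)| ≤ B) → (∀ i ∈ S, |(u' i : ℝ)| ≤ B) →
        ¬ M ∣ ∑ i ∈ S, (u i * P i + u' i * P (i + 1)) →
        1 / 40 * (n : ℝ) ≤
          S.card * Real.log (n * B * ((M : ℝ) / Int.gcd M (∑ i ∈ S, (u i * P i + u' i * P (i + 1)))))) ∧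
    -- (5) the factors of `M`
    (∀ n : ℕ, 0 < n → ∀ x y : ℤ, (x : ℝ) + y * √2 = (1 + √2) ^ n → ∀ M : ℤ, (M = x ∨ M = y) →
      ∀ d e : ℤ, 1 < d → 1 < e → d * e = M →
      ∀ (S : Finset ℕ) (u : ℕ → ℤ) (B : ℝ), (∀ i ∈ S, i ≤ n) → (∀ i ∈ S, |(u i : ℝ)| ≤ B) →
        d = ∑ i ∈ S, u i * P i →
        1 / 40 * (n : ℝ) ≤ S.card * Real.log (B * e) ∧
        ∀ k l : ℕ, k + l ≤ n + 1 → (∀ i ∈ S, i < k ∨ k + l ≤ i) → (1 + √2) ^ l ≤ 18 * B ^ 2 * (e : ℝ) ^ 2) := by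
  refine ⟨fun n hn x y h M hM S u u' hnd => partA hn (isPL_of h hM) S u u' hnd, fun s m hs hm x y h => ?_,
    fun s m hm x y h => ?_, fun n hn x y h M hM S u B k l hS hu hkl hgap hnd =>
      partB hn (isPL_of h hM) S hS u B hu k l hkl hgap hnd,
    fun n hn x y h M hM S u B hS hu hnd => partD hn (isPL_of h hM) S hS u B hu hnd,
    fun n hn x y h M hM S u u' B hu hu' hnd => partE hn (isPL_of h hM) S u u' B hu hu' hnd,
    fun n hn x y h M hM d e hd he hde S u B hS hu hdS => ?_⟩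
  · obtain ⟨S, u, u', h1, h2, h3, h4⟩ := partA' s m hs hm
    rw [(xy_eq h).1]
    exact ⟨S, u, u', h1, h2, h3, h4⟩
  · obtain ⟨S, u, u', h1, h2, h3, h4⟩ := partA'' s m hm
    rw [(xy_eq h).1]
    exact ⟨S, u, u', h1, h2, h3, h4⟩
  · have hnd : ¬ M ∣ ∑ i ∈ S, u i * P i := by
      rw [← hdS, ← hde]
      intro hdv
      have := Int.le_of_dvd (by linarith) hdv
      nlinarith
    have hg : (Int.gcd M (∑ i ∈ S, u i * P i) : ℤ) = d := by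
      rw [← hdS]
      exact Int.gcd_eq_right (by linarith) ⟨e, hde.symm⟩
    have hgr : ((Int.gcd M (∑ i ∈ S, u i * P i) : ℕ) : ℝ) = (d : ℝ) := by
      exact_mod_cast congrArg (fun z : ℤ => (z : ℝ)) hg
    have hd0 : (0 : ℝ) < d := by exact_mod_cast (by linarith : (0 : ℤ) < d)
    have hMr : (M : ℝ) = d * e := by rw [← hde]; push_cast; ring
    have hq : (M : ℝ) / d = e := by
      rw [div_eq_iff hd0.ne', hMr]; ring
    refine ⟨?_, fun k l hkl hgap => ?_⟩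
    · have := partD hn (isPL_of h hM) S hS u B hu hnd
      rwa [hgr, hq] at this
    · have := partB hn (isPL_of h hM) S hS u B hu k l hkl hgap hnd
      rw [hgr, hMr] at this
      have h2 : (d : ℝ) ^ 2 * (1 + √2) ^ l ≤ (d : ℝ) ^ 2 * (18 * B ^ 2 * (e : ℝ) ^ 2) := by
        calc (d : ℝ) ^ 2 * (1 + √2) ^ l = (1 + √2) ^ l * (d : ℝ) ^ 2 := by ring
          _ ≤ 18 * B ^ 2 * (d * e) ^ 2 := this
          _ = _ := by ring
      exact le_of_mul_le_mul_left h2 (by positivity)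

end Pool.Agent.Results.MP_927e73_nt.SharpCommonDivisors
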