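import Pool.Agent.Run7.h370.Pell

/-!
# Sparse multiples of divisors of the solutions of `x ^ 2 - 2 y ^ 2 = -1` with prime index

The solutions of `x ^ 2 - 2 y ^ 2 = -1` in positive integers are `x + y √2 = (1 + √2) ^ n`, `n` odd, and `x` or `y` is
prime only if `n` is prime.  Let `n` be an odd prime, `M = x` or `M = y`, and let `P_i = 0, 1, 2, 5, 12, 29, …` be the Pell
numbers.  Let `N = ∑_{i ∈ S} (u_i P_i + u'_i P_(i+1))` with `|S| = s` and arbitrary integers `u_i, u'_i`, and assume that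
`M` does not divide `N`.  Then, for every `t ≥ 1` with `t ^ s < n`,
`gcd (M, N) ≤ (2 ∑ (|u_i| + 3 |u'_i|)) ^ (2 t ^ s) (1 + √2) ^ (2 (n / t))`.
So for every `δ > 0` there is `c > 0` such that every multiple of a divisor `d ≥ (1 + √2) ^ (δ n)` of `M`, other than the
multiples of `M`, is not a sum of fewer than `c log n` Pell numbers and negatives of Pell numbers, and not a combination of
fewer than `c log (n / (ℓ + 1))` pairs of consecutive Pell numbers with coefficients at most `(1 + √2) ^ ℓ`.  This applies to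
all the proper divisors `d ≥ √M` if `M` is composite.  The starting result SparseFactors for this problem needs a
factorization `M = d e` in which both `d` and `e` are sparse.

Proof (`Pool/Agent/Run7/h370`).  With `ω = 1 + √2` take `q ≤ t ^ s` such that all `q i` are close to multiples of `n`, and
write `2 √2 N` modulo `ω ^ n - 1` (for `x`) or modulo `ω ^ (2 n) + 1` (for `y`) as a Laurent polynomial with small exponents
in an element `z` with `z ^ q = ω`, respectively `z ^ q = - ω ^ 2`.  The polynomials `X ^ q - ω` and `X ^ q + ω ^ 2` are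
irreducible over `ℚ(√2)` for all `q`; so either the Laurent polynomial is zero modulo this binomial, and then `M` divides
`N`, or the resultant of the two is a nonzero element of `ℤ[√2]` whose norm is a multiple of the common divisor (of its
square, in the second case).
-/

set_option autoImplicit false

namespace Pool.Agent.Results.MP_927e73_nt.SparseMultiples

open Run7.h370

/-- The Pell numbers. -/
def P : ℕ → ℤ
  | 0 => 0
  | 1 => 1
  | k + 2 => 2 * P (k + 1) + P k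

theorem P_eq (i : ℕ) : P i = Pool.Agent.N449.SQ.U 2 i := by
  induction i using Nat.strong_induction_on with
  | _ i ih =>
    match i with
    | 0 => rfl
    | 1 => rfl
    | i + 2 => rw [P, Pool.Agent.N449.SQ.U, ih (i + 1) (by omega), ih i (by omega)]

/-- **Sparse multiples of divisors of the solutions of `x ^ 2 - 2 y ^ 2 = -1`.** -/
theorem result :
    -- arbitrary coefficients
    (∀ n : ℕ, n.Prime → n ≠ 2 → ∀ x y : ℤ, (x : ℝ) + y * √2 = (1 + √2) ^ n →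
      ∀ M : ℤ, (M = x ∨ M = y) → ∀ (S : Finset ℕ) (u u' : ℕ → ℤ) (t : ℕ), 0 < t → t ^ S.card < n →
      ¬ M ∣ ∑ i ∈ S, (u i * P i + u' i * P (i + 1)) →
      (Int.gcd M (∑ i ∈ S, (u i * P i + u' i * P (i + 1))) : ℝ) ≤
        (2 * ∑ i ∈ S, (|(u i : ℝ)| + 3 * |(u' i : ℝ)|)) ^ (2 * t ^ S.card) *
          (1 + √2) ^ (2 * (n / t))) ∧
    -- large divisors have no sparse multiples
    (∀ δ : ℝ, 0 < δ → ∃ c : ℝ, 0 < c ∧ ∀ n : ℕ, n.Prime → n ≠ 2 →
      ∀ x y : ℤ, (x : ℝ) + y * √2 = (1 + √2) ^ n → ∀ M : ℤ, (M = x ∨ M = y) →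
      ∀ (S : Finset ℕ) (u u' : ℕ → ℤ) (ℓ : ℕ),
      (∀ i ∈ S, |(u i : ℝ)| ≤ (1 + √2) ^ ℓ ∧ |(u' i : ℝ)| ≤ (1 + √2) ^ ℓ) →
      ¬ M ∣ ∑ i ∈ S, (u i * P i + u' i * P (i + 1)) →
      (1 + √2) ^ (δ * n) ≤ (Int.gcd M (∑ i ∈ S, (u i * P i + u' i * P (i + 1))) : ℝ) →
      c * Real.log (n / (ℓ + 1)) ≤ S.card) ∧
    -- the large proper divisors
    (∃ c : ℝ, 0 < c ∧ ∀ n : ℕ, n.Prime → n ≠ 2 →
      ∀ x y : ℤ, (x : ℝ) + y * √2 = (1 + √2) ^ n → ∀ M : ℤ, (M = x ∨ M = y) →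
      ∀ d : ℤ, d ∣ M → 0 < d → d < M → M ≤ d ^ 2 → ∀ (S : Finset ℕ) (u u' : ℕ → ℤ) (ℓ : ℕ),
      (∀ i ∈ S, |(u i : ℝ)| ≤ (1 + √2) ^ ℓ ∧ |(u' i : ℝ)| ≤ (1 + √2) ^ ℓ) →
      d = ∑ i ∈ S, (u i * P i + u' i * P (i + 1)) →
      c * Real.log (n / (ℓ + 1)) ≤ S.card) := by
  have hA : ∀ n : ℕ, n.Prime → n ≠ 2 → ∀ x y : ℤ, (x : ℝ) + y * √2 = (1 + √2) ^ n →
      ∀ M : ℤ, (M = x ∨ M = y) → ∀ (S : Finset ℕ) (u u' : ℕ → ℤ) (t : ℕ), 0 < t → t ^ S.card < n →
      ¬ M ∣ ∑ i ∈ S, (u i * P i + u' i * P (i + 1)) →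
      (Int.gcd M (∑ i ∈ S, (u i * P i + u' i * P (i + 1))) : ℝ) ≤
        (2 * ∑ i ∈ S, (|(u i : ℝ)| + 3 * |(u' i : ℝ)|)) ^ (2 * t ^ S.card) *
          (1 + √2) ^ (2 * (n / t)) := by
    intro n hn hn2 x y hxy M hM S u u' t ht hts hnd
    simp only [P_eq] at hnd ⊢
    have h1 := pellMain n hn hn2 x y hxy M
      (Int.gcd M (∑ i ∈ S, (u i * Pool.Agent.N449.SQ.U 2 i + u' i * Pool.Agent.N449.SQ.U 2 (i + 1))) : ℤ)
      hM S u u' t ht hts (Int.gcd_dvd_right _ _) (Int.gcd_dvd_left _ _) hnd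
    rwa [Int.cast_natCast, Nat.abs_cast] at h1
  have h2 : √(2 : ℝ) ^ 2 = 2 := Real.sq_sqrt (by norm_num)
  have hs2 : (0 : ℝ) < √2 := Real.sqrt_pos.2 (by norm_num)
  have hs4 : (1 : ℝ) < √2 := by nlinarith
  have hC : ∀ δ : ℝ, 0 < δ → ∃ c : ℝ, 0 < c ∧ ∀ n : ℕ, n.Prime → n ≠ 2 →
      ∀ x y : ℤ, (x : ℝ) + y * √2 = (1 + √2) ^ n → ∀ M : ℤ, (M = x ∨ M = y) →
      ∀ (S : Finset ℕ) (u u' : ℕ → ℤ) (ℓ : ℕ),
      (∀ i ∈ S, |(u i : ℝ)| ≤ (1 + √2) ^ ℓ ∧ |(u' i : ℝ)| ≤ (1 + √2) ^ ℓ) →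
      ¬ M ∣ ∑ i ∈ S, (u i * P i + u' i * P (i + 1)) →
      (1 + √2) ^ (δ * n) ≤ (Int.gcd M (∑ i ∈ S, (u i * P i + u' i * P (i + 1))) : ℝ) →
      c * Real.log (n / (ℓ + 1)) ≤ S.card := by
    intro δ hδ
    obtain ⟨c, hc0, hc⟩ := asympG 8 2 (by norm_num) (by norm_num) δ hδ
    refine ⟨c, hc0, fun n hn hn2 x y hxy M hM S u u' ℓ hu hnd hbig => ?_⟩
    have hS : 0 < S.card := by
      rw [Finset.card_pos]
      by_contra h
      rw [Finset.not_nonempty_iff_eq_empty] at h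
      subst h
      simp at hnd
    refine hc (1 + √2) (by linarith) n S.card ℓ _ hn.pos hS hbig fun t ht htk => ?_
    refine (hA n hn hn2 x y hxy M hM S u u' t ht htk hnd).trans ?_
    have h3 : ∑ i ∈ S, (|(u i : ℝ)| + 3 * |(u' i : ℝ)|) ≤ S.card * (4 * (1 + √2) ^ ℓ) := by
      rw [← nsmul_eq_mul]
      refine Finset.sum_le_card_nsmul _ _ _ fun i hi => ?_
      have := hu i hi
      linarith [this.1, this.2]
    have h4 : 0 ≤ ∑ i ∈ S, (|(u i : ℝ)| + 3 * |(u' i : ℝ)|) :=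
      Finset.sum_nonneg fun _ _ => by positivity
    refine mul_le_mul (pow_le_pow_left₀ (by positivity) ?_ _)
      (pow_le_pow_right₀ (by linarith) (by omega)) (by positivity) (by positivity)
    push_cast
    linarith
  refine ⟨hA, hC, ?_⟩
  obtain ⟨c, hc0, hc⟩ := hC (1 / 6) (by norm_num)
  refine ⟨c, hc0, fun n hn hn2 x y hxy M hM d hd hd0 hd1 hd2 S u u' ℓ hu hdS => ?_⟩
  refine hc n hn hn2 x y hxy M hM S u u' ℓ hu (by
    rw [← hdS]
    intro h
    exact absurd (Int.le_of_dvd hd0 h) (not_le.2 hd1)) ?_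
  rw [← hdS]
  have h1 : (Int.gcd M d : ℤ) = d := by
    rw [Int.gcd_comm, Int.gcd_eq_left_iff_dvd hd0.le |>.2 hd]
  have h2' : (Int.gcd M d : ℝ) = (d : ℝ) := by exact_mod_cast h1
  rw [h2']
  have hn3 : 3 ≤ n := by
    have := hn.two_le
    omega
  have h3 : ((1 + √2) ^ ((1 / 6 : ℝ) * n)) ^ 2 ≤ (d : ℝ) ^ 2 := by
    rw [← Real.rpow_natCast, ← Real.rpow_mul (by positivity)]
    have e : (1 / 6 : ℝ) * n * ((2 : ℕ) : ℝ) ≤ ((n - 2 : ℕ) : ℝ) := by
      rw [Nat.cast_sub hn.two_le]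
      have : (3 : ℝ) ≤ n := by exact_mod_cast hn3
      push_cast
      linarith
    refine (Real.rpow_le_rpow_of_exponent_le (by linarith) e).trans ?_
    rw [Real.rpow_natCast]
    refine (pellLower n (hn.odd_of_ne_two hn2) hn.two_le x y hxy M hM).trans ?_
    exact_mod_cast hd2
  exact (pow_le_pow_iff_left₀ (by positivity) (by exact_mod_cast hd0.le) two_ne_zero).1 h3

end Pool.Agent.Results.MP_927e73_nt.SparseMultiples
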